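import Pool.Agent.helper92.VT.Spec

/-!
# Row TMN: monotonicity of `TR`
-/

universe u

namespace Pool.Agent.helper92.VT

open MvPolynomial Pool.Agent.helper92.VC

theorem TMN_dim {ι : Type} {K : Type u} [Field K] {w w' : ℕ} {S S' : Set ((ι → ℕ) → K)}
    (hw : w ≤ w') (hS : S' ⊆ S) (h : DimLE K w S) : DimLE K w' S' := by
  obtain ⟨g, hg⟩ := h
  refine ⟨fun i => if h : i.1 < w then g ⟨i.1, h⟩ else 0, fun x hx => ?_⟩
  refine Submodule.span_mono ?_ (hg (hS hx))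
  rintro _ ⟨i, rfl⟩
  refine ⟨⟨i.1, lt_of_lt_of_le i.2 hw⟩, ?_⟩
  simp only [i.2, dif_pos]

theorem TMN : TMN_stmt.{u} := by
  intro ι _ K _ w w' t
  induction t with
  | leaf x =>
    intro S S' hw hS h
    refine TMN_dim hw ?_ h
    rintro _ ⟨T, hT, γ, rfl⟩
    exact ⟨T, hS hT, γ, rfl⟩
  | node a b iha ihb =>
    intro S S' hw hS h
    refine ⟨TMN_dim hw ?_ h.1, iha S S' hw hS h.2.1, ihb S S' hw hS h.2.2⟩
    rintro _ ⟨T, hT, γ, rfl⟩
    exact ⟨T, hS hT, γ, rfl⟩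

end Pool.Agent.helper92.VT
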